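import Pool.Agent.helper19.QP.SpecV
import Pool.Agent.helper7.IG.Basic

/-!
# Row qp:HKS (MP_ebc808_nt): the Hecke operator as a sum over the conjugates
-/

set_option autoImplicit false

open Finset

noncomputable section

namespace Pool.Agent.QP

open Pool.Agent.helper7.IG (kk LL sig DDk MM im2 ps Vx Nb Frame)
open Pool.Agent.LQ (FF DD)

theorem HKS_inner (hURU : URU_stmt) (m E : ℕ) (hm : Odd m) (hE : E ≠ 0) (F : LL) (l : ℤ) :
    ∑ ζ ∈ RU m, (sig E ζ F).coeff l = if (((E * m : ℕ) : ℕ) : ℤ) ∣ l then F.coeff (l / E) else 0 := by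
  have hE' : (E : ℤ) ≠ 0 := by exact_mod_cast hE
  by_cases h : (E : ℤ) ∣ l
  · obtain ⟨t, rfl⟩ := h
    rw [Int.mul_ediv_cancel_left _ hE']
    simp_rw [Pool.Agent.helper7.IG.sig_coeff_mul hE]
    rw [← Finset.sum_mul, (hURU m hm).2 t]
    have h2 : (((E * m : ℕ) : ℕ) : ℤ) ∣ (E : ℤ) * t ↔ (m : ℤ) ∣ t := by
      push_cast
      exact mul_dvd_mul_iff_left hE'
    by_cases h3 : (m : ℤ) ∣ t
    · rw [if_pos h3, if_pos (h2.2 h3), one_mul]
    · rw [if_neg h3, if_neg (fun hh => h3 (h2.1 hh)), zero_mul]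
  · have h2 : ¬ (((E * m : ℕ) : ℕ) : ℤ) ∣ l := by
      intro hh
      apply h
      refine dvd_trans ?_ hh
      push_cast
      exact dvd_mul_right _ _
    rw [if_neg h2]
    apply Finset.sum_eq_zero
    intro ζ _
    exact Pool.Agent.helper7.IG.sig_coeff_of_not_dvd hE ζ F l h

theorem HKS (hURU : URU_stmt) : HKS_stmt := by
  intro n N G hn hN hnN
  have hn0 : n ≠ 0 := by rintro rfl; exact absurd hn (by decide)
  have hN' : (N : ℤ) ≠ 0 := by exact_mod_cast hN
  apply HahnSeries.ext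
  funext l
  unfold HC
  rw [HahnSeries.coeff_sum]
  -- the term of `m`
  have hterm : ∀ m ∈ n.divisors, (∑ ζ ∈ RU m, sig (N * (n / m) / m) ζ (im2 G)).coeff l =
      if (((N * (n / m) : ℕ) : ℕ) : ℤ) ∣ l then (im2 G).coeff (m * (l / ((N * (n / m) : ℕ) : ℤ))) else 0 := by
    intro m hm
    have hmn : m ∣ n := Nat.dvd_of_mem_divisors hm
    have hm0 : m ≠ 0 := by rintro rfl; exact hn0 (Nat.eq_zero_of_zero_dvd hmn)
    have hmodd : Odd m := Odd.of_dvd_nat hn hmn
    have hmN : m ∣ N * (n / m) := dvd_mul_of_dvd_left (dvd_trans hmn hnN) _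
    have hEm : N * (n / m) / m * m = N * (n / m) := Nat.div_mul_cancel hmN
    have hnm : n / m ≠ 0 := by
      intro h
      have := Nat.div_mul_cancel hmn
      rw [h, zero_mul] at this
      exact hn0 this.symm
    have hE : N * (n / m) / m ≠ 0 := by
      intro h
      rw [h, zero_mul] at hEm
      exact (mul_ne_zero hN hnm) hEm.symm
    have hE' : ((N * (n / m) / m : ℕ) : ℤ) ≠ 0 := by exact_mod_cast hE
    have hNm' : ((N * (n / m) : ℕ) : ℤ) ≠ 0 := by exact_mod_cast (mul_ne_zero hN hnm)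
    rw [HahnSeries.coeff_sum, HKS_inner hURU m _ hmodd hE, hEm]
    split_ifs with h
    · obtain ⟨t, rfl⟩ := h
      rw [Int.mul_ediv_cancel_left _ hNm']
      congr 1
      have h5 : ((N * (n / m) : ℕ) : ℤ) * t = ((N * (n / m) / m : ℕ) : ℤ) * (m * t) := by
        rw [← mul_assoc, ← Nat.cast_mul, hEm]
      rw [h5, Int.mul_ediv_cancel_left _ hE']
    · rfl
  rw [Finset.sum_congr rfl hterm]
  by_cases hl : (N : ℤ) ∣ l
  · obtain ⟨k, rfl⟩ := hl
    rw [Pool.Agent.helper7.IG.sig_coeff_mul hN, one_zpow, Units.val_one, one_mul]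
    -- reindex by `d = n / m`
    have hre : ∀ m ∈ n.divisors, (if (((N * (n / m) : ℕ) : ℕ) : ℤ) ∣ (N : ℤ) * k then
        (im2 G).coeff (m * ((N : ℤ) * k / ((N * (n / m) : ℕ) : ℤ))) else 0) =
        (fun d : ℕ => if (d : ℤ) ∣ k then (im2 G).coeff (((n / d : ℕ) : ℤ) * (k / (d : ℤ))) else 0) (n / m) := by
      intro m hm
      have hmn : m ∣ n := Nat.dvd_of_mem_divisors hm
      have h1 : (((N * (n / m) : ℕ) : ℕ) : ℤ) ∣ (N : ℤ) * k ↔ ((n / m : ℕ) : ℤ) ∣ k := by
        rw [Nat.cast_mul]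
        exact mul_dvd_mul_iff_left hN'
      simp only
      by_cases h2 : ((n / m : ℕ) : ℤ) ∣ k
      · rw [if_pos h2, if_pos (h1.2 h2), Nat.div_div_self hmn hn0, Nat.cast_mul,
          Int.mul_ediv_mul_of_pos _ _ (by omega)]
      · rw [if_neg h2, if_neg (fun hh => h2 (h1.1 hh))]
    rw [Finset.sum_congr rfl hre, Nat.sum_div_divisors n
      (fun d : ℕ => if (d : ℤ) ∣ k then (im2 G).coeff (((n / d : ℕ) : ℤ) * (k / (d : ℤ))) else 0)]
    rcases lt_or_ge k 0 with hk | hk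
    · rw [Pool.Agent.helper7.IG.im2_coeff_neg _ _ hk]
      apply Finset.sum_eq_zero
      intro d hd
      split_ifs with h
      · have hdn : d ∣ n := Nat.dvd_of_mem_divisors hd
        have hd0 : 0 < d := Nat.pos_of_mem_divisors hd
        have hnd : 0 < n / d := Nat.div_pos (Nat.le_of_dvd (Nat.pos_of_ne_zero hn0) hdn) hd0
        apply Pool.Agent.helper7.IG.im2_coeff_neg
        have h1 : k / (d : ℤ) < 0 := Int.ediv_neg_of_neg_of_pos hk (by exact_mod_cast hd0)
        have h2 : (0 : ℤ) < ((n / d : ℕ) : ℤ) := by exact_mod_cast hnd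
        exact mul_neg_of_pos_of_neg h2 h1
      · rfl
    · obtain ⟨j, rfl⟩ := Int.eq_ofNat_of_zero_le hk
      have hj : ((j : ℕ) : ℤ) = (Int.ofNat j) := rfl
      rw [Pool.Agent.helper7.IG.im2_coeff_nat, Pool.Agent.LQ.coeff_T, map_sum]
      have hfil : (Nat.gcd j n).divisors = n.divisors.filter (fun d => d ∣ j) := by
        ext d
        simp only [Nat.mem_divisors, mem_filter, Nat.dvd_gcd_iff]
        constructor
        · rintro ⟨⟨a, b⟩, -⟩
          exact ⟨⟨b, hn0⟩, a⟩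
        · rintro ⟨⟨b, -⟩, a⟩
          exact ⟨⟨a, b⟩, fun h => hn0 (Nat.eq_zero_of_gcd_eq_zero_right h)⟩
      rw [hfil, Finset.sum_filter]
      apply Finset.sum_congr rfl
      intro d hd
      have hdn : d ∣ n := Nat.dvd_of_mem_divisors hd
      have hd0 : 0 < d := Nat.pos_of_mem_divisors hd
      by_cases h : d ∣ j
      · rw [if_pos h, if_pos (by exact_mod_cast h)]
        have h6 : ((n / d : ℕ) : ℤ) * (((j : ℕ) : ℤ) / (d : ℤ)) = ((n / d * (j / d) : ℕ) : ℤ) := by
          push_cast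
          ring
        rw [h6, Pool.Agent.helper7.IG.im2_coeff_nat]
        congr 2
        rw [sq, Nat.div_mul_div_comm hdn h, mul_comm]
      · rw [if_neg h, if_neg (by intro hh; exact h (by exact_mod_cast hh))]
  · rw [Pool.Agent.helper7.IG.sig_coeff_of_not_dvd hN _ _ _ hl]
    apply Finset.sum_eq_zero
    intro m _
    rw [if_neg]
    intro hh
    apply hl
    refine dvd_trans ?_ hh
    push_cast
    exact dvd_mul_right _ _

end Pool.Agent.QP
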