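import Pool.Agent.helper19.QP.SpecV
import Pool.Agent.helper67.LQ.All

/-!
# Row qp:SDI (MP_ebc808_nt): the sums of Hecke operators lower degrees
-/

set_option autoImplicit false

open Finset

noncomputable section

namespace Pool.Agent.QP

open Pool.Agent.LQ (FF DD)

/-- expansion of `aeval DD Q` -/
theorem SDI_aeval (Q : Polynomial (ZMod 2)) (n : ℕ) :
    PowerSeries.coeff n (Polynomial.aeval DD Q) =
      ∑ k ∈ range (Q.natDegree + 1), Q.coeff k * PowerSeries.coeff n (DD ^ k) := by
  rw [Polynomial.aeval_eq_sum_range, map_sum]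
  refine Finset.sum_congr rfl (fun k _ => ?_)
  rw [map_smul, smul_eq_mul]

theorem SDI : SDI_stmt := by
  intro NN K k₀ hRel hK i hi
  obtain ⟨hNN, hKo, hR⟩ := hRel
  obtain ⟨A, hA1, hA2, hA3⟩ := Pool.Agent.LQ.all_BDA i hi
  have hG : Pool.Agent.LQ.Gen 2 DD := Pool.Agent.LQ.all_GN2
  set c : ℕ → ZMod 2 := fun j => ∑ n ∈ NN, PowerSeries.coeff n (Polynomial.aeval DD (A j)) with hc
  set P : Polynomial (ZMod 2) := ∑ j ∈ range (i + 1), Polynomial.C (c j) * Polynomial.X ^ j with hP
  have hPc : ∀ l : ℕ, P.coeff l = if l < i + 1 then c l else 0 := by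
    intro l
    rw [hP, Polynomial.finsetSum_coeff]
    simp only [Polynomial.coeff_C_mul_X_pow]
    rw [Finset.sum_ite_eq]
    simp only [mem_range]
  have hcne : ∀ j : ℕ, c j ≠ 0 → ∃ k ∈ K, (A j).coeff k ≠ 0 := by
    intro j hj
    by_contra hcon
    push Not at hcon
    apply hj
    simp only [hc]
    simp_rw [SDI_aeval]
    rw [Finset.sum_comm]
    apply Finset.sum_eq_zero
    intro k _
    rw [← Finset.mul_sum]
    by_cases hk : (A j).coeff k = 0
    · rw [hk, zero_mul]
    · have hko : Odd k := (hA1 j k hk).1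
      rw [hR k hko]
      by_cases hkK : k ∈ K
      · exact absurd (hcon k hkK) hk
      · rw [if_neg hkK, mul_zero]
  have hcodd : ∀ j : ℕ, c j ≠ 0 → Odd j := by
    intro j hj
    obtain ⟨k, -, hk⟩ := hcne j hj
    exact (hA1 j k hk).2.1
  refine ⟨P, ?_, ?_, ?_⟩
  · intro l hl
    rw [hPc] at hl
    split_ifs at hl with h1
    · obtain ⟨k, hkK, hk⟩ := hcne l hl
      obtain ⟨a1, a2, a3⟩ := hA1 l k hk
      have := hK k hkK
      exact ⟨a2, by omega⟩
    · exact absurd rfl hl
  · rw [hPc, if_pos (by have := hi.pos; omega)]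
    simp only [hc]
    rw [hA2]
    simp only [map_pow, Polynomial.aeval_X]
    exact hR i hi
  · have hae : Polynomial.aeval DD P = ∑ j ∈ range (i + 1), c j • DD ^ j := by
      rw [hP, map_sum]
      refine Finset.sum_congr rfl (fun j _ => ?_)
      rw [map_mul, map_pow, Polynomial.aeval_X, Polynomial.aeval_C, Algebra.smul_def]
    rw [hae]
    ext b
    rw [map_sum, map_sum]
    rcases Nat.even_or_odd b with hb | hb
    · -- both sides vanish
      have h2b : ¬ b.Coprime 2 := by
        rw [Nat.coprime_comm, Nat.coprime_two_left]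
        rw [Nat.even_iff] at hb
        intro h
        rw [Nat.odd_iff] at h
        omega
      have hL : ∑ n ∈ NN, PowerSeries.coeff b (Pool.Agent.LQ.T n (DD ^ i)) = 0 := by
        apply Finset.sum_eq_zero
        intro n hn
        have hn2 : n.Coprime 2 := by
          rw [Nat.coprime_comm, Nat.coprime_two_left]; exact hNN n hn
        have hi2 : i.Coprime 2 := by
          rw [Nat.coprime_comm, Nat.coprime_two_left]; exact hi
        exact Pool.Agent.LQ.AF3_one 2 n hn2 (DD ^ i) (hG.sup i hi2) b h2b
      rw [hL]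
      symm
      apply Finset.sum_eq_zero
      intro j _
      rw [map_smul, smul_eq_mul]
      by_cases hj : c j = 0
      · rw [hj, zero_mul]
      · have hjo := hcodd j hj
        have hj2 : j.Coprime 2 := by
          rw [Nat.coprime_comm, Nat.coprime_two_left]; exact hjo
        have : PowerSeries.coeff b (DD ^ j) = 0 := by
          by_contra h
          exact h2b (hG.sup j hj2 b h)
        rw [this, mul_zero]
    · have h1 : ∀ n ∈ NN, PowerSeries.coeff b (Pool.Agent.LQ.T n (DD ^ i)) =
          ∑ j ∈ range (i + 1), PowerSeries.coeff n (Polynomial.aeval DD (A j)) * PowerSeries.coeff b (DD ^ j) :=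
        fun n hn => hA3 n b (hNN n hn) hb
      rw [Finset.sum_congr rfl h1, Finset.sum_comm]
      refine Finset.sum_congr rfl (fun j _ => ?_)
      rw [← Finset.sum_mul, map_smul, smul_eq_mul]

end Pool.Agent.QP
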